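import Pool.Agent.KT3.StmtsA
import Pool.Agent.Helper13_NBT.IBF

/-!
# Squad KT3, row LFL (helper39)
-/

set_option autoImplicit false

open Matrix Filter Topology

namespace Pool.Agent.KT3.H39

open Pool.Agent.PFS Pool.Agent.PFJ Pool.Agent.NBT

theorem i01_compl : (I01)ᶜ = ({2} : Finset (Fin 3)) := by decide

theorem lfl (wic : WicStmt) : LflStmt := by
  intro n C Γ d hH x w hx hw hxw z y φ hz hzy hφ hφy
  have hP : PCone C := hH.toHI.toHK.toCC.toPCone
  have hfC : ∑ i, w i ∈ C := hw.pes.1.sum_mem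
  obtain ⟨_, hlim⟩ := wic n C Γ 3 I01 d hH.toHI x w hx hxw hfC
  have hyF : y ∈ BI C w I01 := hlim.2 id z y strictMono_id (fun m => (hz m).mem) hzy
  have hyc : y ∈ closure C :=
    isClosed_closure.mem_of_tendsto hzy (Eventually.of_forall fun m => (hz m).cl)
  have hw2 : w 2 ∈ closure C := hw.pes.1.cl 2
  refine ⟨hyF, hyc, ?_, ?_⟩
  · intro hu
    obtain ⟨hUf, _, _, _⟩ := (Pool.Agent.NBT.H13.ibf n C hP 3 w hw.pes.1).1 I01 (BI C w I01) hw.box
    obtain ⟨M, hM, h1⟩ := hu.2.2 (fS w I01) hUf.1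
    have hcomp : fS w I01 + w 2 = ∑ i, w i := by
      rw [← fS_add_compl w I01, i01_compl, fS_single]
    have hC : y + w 2 ∈ C := by
      have hM1 : (0 : ℝ) < max M 1 := lt_of_lt_of_le hM (le_max_left _ _)
      have h2 : (max M 1) • (y + w 2) ∈ C := by
        have e : (max M 1) • (y + w 2) = (∑ i, w i) + ((M • y - fS w I01) +
            (((max M 1) - M) • y + ((max M 1) - 1) • w 2)) := by
          rw [← hcomp, smul_add, sub_smul, sub_smul, one_smul]
          abel
        rw [e]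
        exact hP.add_cl hfC (hP.cl_add h1 (hP.cl_add
          (hP.cl_smul hyc (sub_nonneg.2 (le_max_left _ _)))
          (hP.cl_smul hw2 (sub_nonneg.2 (le_max_right _ _)))))
      have h3 := hP.smul _ h2 (max M 1)⁻¹ (inv_pos.2 hM1)
      rwa [smul_smul, inv_mul_cancel₀ hM1.ne', one_smul] at h3
    have hev : ∀ᶠ m in atTop, z m + x m 2 ∈ C :=
      (hzy.add (hxw 2)).eventually (hP.isOpen.mem_nhds hC)
    obtain ⟨m, hm⟩ := hev.exists
    refine (hz m).non ⟨(hz m).mem, (hz m).cl, fun v hv => ?_⟩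
    obtain ⟨M2, hM2, h2⟩ := hP.absorb hm v
    refine ⟨M2, hM2, ?_⟩
    obtain ⟨_, _, h4, _⟩ := (Pool.Agent.NBT.H13.ibf n C hP 3 (x m) (hx m).pes.1).1 I01
      (BI C (x m) I01) (hx m).box
    refine (h4 (M2 • z m - v) (Submodule.sub_mem _ (Submodule.smul_mem _ _ (hz m).mem) hv)
      (fun _ => M2) ?_).1
    rw [i01_compl, Finset.sum_singleton]
    have e : M2 • z m - v + M2 • x m 2 = M2 • (z m + x m 2) - v := by
      rw [smul_add]
      abel
    rw [e]
    exact subset_closure h2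
  · intro c h
    have h0 : φ y = 0 := by
      rw [h, map_smul, hφ.zero 1 (by decide), smul_zero]
    linarith

end Pool.Agent.KT3.H39
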